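import Pool.Agent.H20WP.All

/-!
# An oracle relative to which the `W`-hierarchy collapses to `FPT` but `FPT ≠ W[P]`
-/

set_option autoImplicit false

namespace Pool.Agent.Results.MP_41371c_lc.CollapseBelowWP

open Pool.Agent.NPC Pool.Agent.H620R2.Gauge Pool.Agent.Y626.WG
open Pool.Agent.Y626.WC (InFPT)
open Pool.Agent.H20PW (InFPTn)
open Pool.Agent.H20WP (InWPe)

/-- There is an oracle `O` relative to which `W[t] = FPT` for all `t` and nonuniform `A[t]` is
nonuniform `FPT`, while some parameterized problem is in `W[P]` but not in `FPT`, not even in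
nonuniform `FPT`. -/
theorem result : ∃ O : Oracle,
    (∀ (t : ℕ) (α : Type) [TEnc α] (κ : α → ℕ) (P : α → Prop),
        (InW t O κ P ↔ InFPT O κ P) ∧ (InA t O κ P → InFPTn O κ P)) ∧
      ∃ P : List Bool × List Bool → Prop,
        InWPe O (fun x => x.2.length) P ∧ ¬ InFPTn O (fun x => x.2.length) P :=
  Pool.Agent.H20WP.final

end Pool.Agent.Results.MP_41371c_lc.CollapseBelowWP
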